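import Pool.Agent.W540.BE.Freq
import Pool.Agent.W529.ST.Stab

/-! Means over the primes of products of a bounded function and a locally constant class function of
the Frobenius elements: one finite Galois extension governs them all. -/

set_option autoImplicit false

namespace Pool.Agent.TH936.ST.Hyb

open NumberField IsDedekindDomain Filter Topology Pool.Agent.W401.Cheb Pool.Agent.W540.BE
open Pool.Agent.W529.ST (uN tendsto_uN)

section
variable {K : Type} [Field K] [NumberField K]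

/-- mean over the primes of norm at most `N` -/
noncomputable def mn (g : HeightOneSpectrum (𝓞 K) → ℝ) (N : ℕ) : ℝ :=
  (∑ v ∈ upto K N, g v) / ((upto K N).card : ℝ)

theorem mn_add (g h : HeightOneSpectrum (𝓞 K) → ℝ) (N : ℕ) :
    mn (fun v => g v + h v) N = mn g N + mn h N := by
  unfold mn
  rw [Finset.sum_add_distrib, add_div]

theorem mn_mul (c : ℝ) (g : HeightOneSpectrum (𝓞 K) → ℝ) (N : ℕ) :
    mn (fun v => c * g v) N = c * mn g N := by
  unfold mn
  rw [← Finset.mul_sum, mul_div_assoc]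

theorem mn_sum {κ : Type} (T : Finset κ) (g : κ → HeightOneSpectrum (𝓞 K) → ℝ) (N : ℕ) :
    mn (fun v => ∑ k ∈ T, g k v) N = ∑ k ∈ T, mn (g k) N := by
  unfold mn
  rw [Finset.sum_comm, Finset.sum_div]

theorem abs_mn_le {g : HeightOneSpectrum (𝓞 K) → ℝ} {B : ℝ} (hB : 0 ≤ B) (hg : ∀ v, |g v| ≤ B)
    (N : ℕ) : |mn g N| ≤ B := by
  unfold mn
  rw [abs_div, abs_of_nonneg (Nat.cast_nonneg _ : (0 : ℝ) ≤ ((upto K N).card : ℝ))]
  refine div_le_of_le_mul₀ (Nat.cast_nonneg _) hB ?_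
  refine (Finset.abs_sum_le_sum_abs _ _).trans ((Finset.sum_le_sum fun v _ => hg v).trans ?_)
  rw [Finset.sum_const, nsmul_eq_mul, mul_comm]

theorem mn_mono {g h : HeightOneSpectrum (𝓞 K) → ℝ} (hgh : ∀ v, g v ≤ h v) (N : ℕ) :
    mn g N ≤ mn h N := by
  unfold mn
  exact div_le_div_of_nonneg_right (Finset.sum_le_sum fun v _ => hgh v) (Nat.cast_nonneg _)

/-- Cauchy's inequality -/
theorem mn_cs (g h : HeightOneSpectrum (𝓞 K) → ℝ) (N : ℕ) :
    mn (fun v => g v * h v) N ^ 2 ≤ mn (fun v => g v ^ 2) N * mn (fun v => h v ^ 2) N := by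
  unfold mn
  rw [div_pow, div_mul_div_comm, ← sq]
  exact div_le_div_of_nonneg_right (Finset.sum_mul_sq_le_sq_mul_sq _ _ _) (sq_nonneg _)

/-- invariance under a subgroup -/
def Inv (V : Subgroup (GK K)) (φ : GK K → ℝ) : Prop := ∀ g, ∀ u ∈ V, φ (g * u) = φ g

/-- class functions -/
def Cls (φ : GK K → ℝ) : Prop := ∀ g τ, φ (τ * g * τ⁻¹) = φ g

/-- locally constant class functions -/
def LC (φ : GK K → ℝ) : Prop :=
  Cls φ ∧ ∃ V : Subgroup (GK K), V.Normal ∧ IsOpen (V : Set (GK K)) ∧ Inv V φ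

theorem fin_quot (V : Subgroup (GK K)) (hV : IsOpen (V : Set (GK K))) : Finite (GK K ⧸ V) :=
  V.quotient_finite_of_isOpen hV

theorem Inv.mono {V W : Subgroup (GK K)} {φ : GK K → ℝ} (h : Inv W φ) (hVW : V ≤ W) : Inv V φ :=
  fun g u hu => h g u (hVW hu)

theorem inf_open {V W : Subgroup (GK K)} (hV : IsOpen (V : Set (GK K)))
    (hW : IsOpen (W : Set (GK K))) : IsOpen ((V ⊓ W : Subgroup (GK K)) : Set (GK K)) := by
  rw [Subgroup.coe_inf]
  exact hV.inter hW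

theorem LC.pair {φ ψ : GK K → ℝ} (h : LC φ) (h' : LC ψ) : ∃ V : Subgroup (GK K), V.Normal ∧
    IsOpen (V : Set (GK K)) ∧ Inv V φ ∧ Inv V ψ := by
  obtain ⟨_, V, hV, hVo, hi⟩ := h
  obtain ⟨_, W, hW, hWo, hj⟩ := h'
  exact ⟨V ⊓ W, inferInstance, inf_open hVo hWo, hi.mono inf_le_left, hj.mono inf_le_right⟩

theorem LC.add {φ ψ : GK K → ℝ} (h : LC φ) (h' : LC ψ) : LC fun g => φ g + ψ g := by
  obtain ⟨V, hV, hVo, hi, hj⟩ := h.pair h'
  refine ⟨fun g τ => ?_, V, hV, hVo, fun g u hu => ?_⟩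
  · simp only [h.1 g τ, h'.1 g τ]
  · simp only [hi g u hu, hj g u hu]

theorem LC.mul {φ ψ : GK K → ℝ} (h : LC φ) (h' : LC ψ) : LC fun g => φ g * ψ g := by
  obtain ⟨V, hV, hVo, hi, hj⟩ := h.pair h'
  refine ⟨fun g τ => ?_, V, hV, hVo, fun g u hu => ?_⟩
  · simp only [h.1 g τ, h'.1 g τ]
  · simp only [hi g u hu, hj g u hu]

theorem LC.const (c : ℝ) : LC fun _ : GK K => c :=
  ⟨fun _ _ => rfl, ⊤, inferInstance, isOpen_univ, fun _ _ _ => rfl⟩

theorem LC.smul {φ : GK K → ℝ} (h : LC φ) (c : ℝ) : LC fun g => c * φ g := (LC.const c).mul h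

theorem LC.sq {φ : GK K → ℝ} (h : LC φ) : LC fun g => φ g ^ 2 := by
  have := h.mul h
  simp only [← pow_two] at this
  exact this

theorem Inv.out {V : Subgroup (GK K)} {φ : GK K → ℝ} (h : Inv V φ) (g : GK K) :
    φ (Quotient.out (QuotientGroup.mk g : GK K ⧸ V)) = φ g := by
  have h1 : (QuotientGroup.mk g : GK K ⧸ V) =
      QuotientGroup.mk (Quotient.out (QuotientGroup.mk g : GK K ⧸ V)) :=
    (QuotientGroup.out_eq' _).symm
  have h2 := QuotientGroup.eq.1 h1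
  have h3 := h g _ h2
  rw [mul_inv_cancel_left] at h3
  exact h3

theorem LC.bdd {φ : GK K → ℝ} (h : LC φ) : ∃ B : ℝ, 0 ≤ B ∧ ∀ g, |φ g| ≤ B := by
  obtain ⟨_, V, hV, hVo, hi⟩ := h
  have := fin_quot V hVo
  cases nonempty_fintype (GK K ⧸ V)
  refine ⟨∑ q : GK K ⧸ V, |φ (Quotient.out q)|, Finset.sum_nonneg fun q _ => abs_nonneg _,
    fun g => ?_⟩
  rw [← hi.out g]
  exact Finset.single_le_sum (f := fun q : GK K ⧸ V => |φ (Quotient.out q)|)
    (fun q _ => abs_nonneg _) (Finset.mem_univ _)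

/-- the mean over the quotient -/
noncomputable def gm (V : Subgroup (GK K)) (φ : GK K → ℝ) : ℝ :=
  (∑ᶠ q : GK K ⧸ V, φ (Quotient.out q)) / (Nat.card (GK K ⧸ V) : ℝ)

variable (σ : HeightOneSpectrum (𝓞 K) → GK K)

/-- the mean of a locally constant class function at the Frobenius elements -/
def HasE (φ : GK K → ℝ) (a : ℝ) : Prop := Tendsto (mn fun v => φ (σ v)) atTop (𝓝 a)

variable {σ}

theorem mean_lim (hσ : ∀ v, IsFrob v (σ v)) (V : Subgroup (GK K)) [V.Normal]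
    (hV : IsOpen (V : Set (GK K))) {φ : GK K → ℝ} (hφ : Cls φ) (hi : Inv V φ) :
    HasE σ φ (gm V φ) := by
  have := fin_quot V hV
  have key : ∀ ψ : GK K → ℝ, Cls ψ → Inv V ψ → Tendsto (fun n : ℕ => (∑ v ∈ upto K n, ψ (σ v)) /
      (Nat.primeCounting n : ℝ)) atTop (𝓝 (gm V ψ)) := by
    intro ψ hψ hj
    have h := cheb_mean V hV (fun q : GK K ⧸ V => ((ψ (Quotient.out q) : ℝ) : ℂ)) (by
      intro a g
      have e1 : (g * a * g⁻¹ : GK K ⧸ V) = QuotientGroup.mk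
          (Quotient.out g * Quotient.out a * (Quotient.out g)⁻¹) := by
        rw [QuotientGroup.mk_mul, QuotientGroup.mk_mul, QuotientGroup.mk_inv,
          QuotientGroup.out_eq', QuotientGroup.out_eq']
      rw [e1, hj.out, hψ]) σ hσ
    have e2 : ∀ n : ℕ, (∑ v ∈ upto K n,
        ((ψ (Quotient.out (QuotientGroup.mk (σ v) : GK K ⧸ V)) : ℝ) : ℂ)) /
        (Nat.primeCounting n : ℂ) =
        (((∑ v ∈ upto K n, ψ (σ v)) / (Nat.primeCounting n : ℝ) : ℝ) : ℂ) := by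
      intro n
      push_cast
      congr 1
      refine Finset.sum_congr rfl fun v _ => ?_
      rw [hj.out]
    have e3 : (Nat.card (GK K ⧸ V) : ℂ)⁻¹ * ∑ᶠ q : GK K ⧸ V, ((ψ (Quotient.out q) : ℝ) : ℂ) =
        ((gm V ψ : ℝ) : ℂ) := by
      cases nonempty_fintype (GK K ⧸ V)
      unfold gm
      rw [finsum_eq_sum_of_fintype, finsum_eq_sum_of_fintype]
      push_cast
      ring
    simp only [e2] at h
    rw [e3] at h
    exact tendsto_ofReal_iff.1 h
  have h1 := key φ hφ hi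
  have h2 := key (fun _ => 1) (fun _ _ => rfl) (fun _ _ _ => rfl)
  have e4 : gm V (fun _ : GK K => (1 : ℝ)) = 1 := by
    cases nonempty_fintype (GK K ⧸ V)
    unfold gm
    rw [finsum_eq_sum_of_fintype, Finset.sum_const, Finset.card_univ, nsmul_eq_mul, mul_one,
      Nat.card_eq_fintype_card]
    exact div_self (by exact_mod_cast Fintype.card_ne_zero)
  rw [e4] at h2
  have h3 := h1.div h2 one_ne_zero
  rw [div_one] at h3
  refine h3.congr' ?_
  have hpc : ∀ᶠ n : ℕ in atTop, 0 < (Nat.primeCounting n : ℝ) :=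
    (tendsto_natCast_atTop_atTop.comp Nat.tendsto_primeCounting).eventually_gt_atTop 0
  filter_upwards [hpc] with n hn
  unfold mn
  simp only [Pi.div_apply]
  rw [Finset.sum_const, nsmul_eq_mul, mul_one, div_div_div_cancel_right₀ hn.ne']

theorem LC.hasE (hσ : ∀ v, IsFrob v (σ v)) {φ : GK K → ℝ} (h : LC φ) : ∃ a, HasE σ φ a := by
  obtain ⟨hc, V, hV, hVo, hi⟩ := h
  exact ⟨gm V φ, mean_lim hσ V hVo hc hi⟩

/-- `φ` has mean zero on the cosets of `W` -/
def MZ (W : Subgroup (GK K)) (φ : GK K → ℝ) : Prop :=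
  ∃ (ι : Type) (_ : Fintype ι) (_ : Nonempty ι) (u : ι → GK K), (∀ i, u i ∈ W) ∧
    ∀ g, ∑ i, φ (g * u i) = 0

/-- functions of mean zero on the cosets are orthogonal to the invariant functions -/
theorem orth (hσ : ∀ v, IsFrob v (σ v)) {W : Subgroup (GK K)} {φ ψ : GK K → ℝ} (hφ : LC φ)
    (hψ : LC ψ) (hz : MZ W φ) (hW : Inv W ψ) : HasE σ (fun g => φ g * ψ g) 0 := by
  obtain ⟨V, hV, hVo, hi, hj⟩ := hφ.pair hψ
  have hfin := fin_quot V hVo
  cases nonempty_fintype (GK K ⧸ V)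
  have h1 := mean_lim hσ V hVo (hφ.mul hψ).1 (φ := fun g => φ g * ψ g)
    (fun g u hu => by simp only [hi g u hu, hj g u hu])
  have h2 : gm V (fun g => φ g * ψ g) = 0 := by
    obtain ⟨ι, hι, hne, u, hu, hs⟩ := hz
    unfold gm
    rw [finsum_eq_sum_of_fintype]
    have e1 : ∀ i : ι, ∑ q : GK K ⧸ V, φ (Quotient.out q) * ψ (Quotient.out q) =
        ∑ q : GK K ⧸ V, φ (Quotient.out q * u i) * ψ (Quotient.out q) := by
      intro i
      refine (Fintype.sum_equiv (Equiv.mulRight (QuotientGroup.mk (u i) : GK K ⧸ V)) _ _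
        fun q => ?_).symm
      have e2 : (Equiv.mulRight (QuotientGroup.mk (u i) : GK K ⧸ V)) q =
          QuotientGroup.mk (Quotient.out q * u i) := by
        rw [Equiv.coe_mulRight, QuotientGroup.mk_mul, QuotientGroup.out_eq']
      rw [e2, hi.out, hj.out, hW _ _ (hu i)]
    have e3 : (Fintype.card ι : ℝ) * ∑ q : GK K ⧸ V, φ (Quotient.out q) * ψ (Quotient.out q) = 0 := by
      have e4 : ∑ i : ι, ∑ q : GK K ⧸ V, φ (Quotient.out q) * ψ (Quotient.out q) =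
          ∑ i : ι, ∑ q : GK K ⧸ V, φ (Quotient.out q * u i) * ψ (Quotient.out q) :=
        Finset.sum_congr rfl fun i _ => e1 i
      rw [Finset.sum_const, Finset.card_univ, nsmul_eq_mul] at e4
      rw [e4, Finset.sum_comm]
      refine Finset.sum_eq_zero fun q _ => ?_
      rw [← Finset.sum_mul, hs, zero_mul]
    have e5 : (Fintype.card ι : ℝ) ≠ 0 := by exact_mod_cast Fintype.card_ne_zero
    rcases mul_eq_zero.1 e3 with h | h
    · exact absurd h e5
    · rw [h, zero_div]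
  rw [h2] at h1
  exact h1

/-- the limit functional -/
noncomputable def Lam (σ : HeightOneSpectrum (𝓞 K) → GK K) (U : Ultrafilter ℕ)
    (f : HeightOneSpectrum (𝓞 K) → ℝ) (φ : GK K → ℝ) : ℝ := uN U (mn fun v => f v * φ (σ v))

variable {U : Ultrafilter ℕ} {f : HeightOneSpectrum (𝓞 K) → ℝ}

theorem tendsto_Lam (hU : (U : Filter ℕ) ≤ atTop) (hf : ∀ v, |f v| ≤ 1) {φ : GK K → ℝ} (h : LC φ) :
    Tendsto (mn fun v => f v * φ (σ v)) U (𝓝 (Lam σ U f φ)) := by
  obtain ⟨B, hB, hφ⟩ := h.bdd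
  refine tendsto_uN ⟨B, Eventually.of_forall fun N => abs_mn_le hB (fun v => ?_) N⟩ U hU
  rw [abs_mul]
  calc |f v| * |φ (σ v)| ≤ 1 * B := mul_le_mul (hf v) (hφ _) (abs_nonneg _) zero_le_one
    _ = B := one_mul B

theorem Lam_add (hU : (U : Filter ℕ) ≤ atTop) (hf : ∀ v, |f v| ≤ 1) {φ ψ : GK K → ℝ} (h : LC φ)
    (h' : LC ψ) : Lam σ U f (fun g => φ g + ψ g) = Lam σ U f φ + Lam σ U f ψ := by
  refine tendsto_nhds_unique (tendsto_Lam hU hf (h.add h')) ?_
  refine ((tendsto_Lam hU hf h).add (tendsto_Lam hU hf h')).congr fun N => ?_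
  rw [← mn_add]
  congr 1
  funext v
  ring

theorem Lam_smul (hU : (U : Filter ℕ) ≤ atTop) (hf : ∀ v, |f v| ≤ 1) {φ : GK K → ℝ} (h : LC φ)
    (c : ℝ) : Lam σ U f (fun g => c * φ g) = c * Lam σ U f φ := by
  refine tendsto_nhds_unique (tendsto_Lam hU hf (h.smul c)) ?_
  refine ((tendsto_Lam hU hf h).const_mul c).congr fun N => ?_
  rw [← mn_mul]
  congr 1
  funext v
  ring

theorem Lam_sq_le (hU : (U : Filter ℕ) ≤ atTop) (hf : ∀ v, |f v| ≤ 1) {φ : GK K → ℝ} (h : LC φ)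
    {a : ℝ} (ha : HasE σ (fun g => φ g ^ 2) a) : Lam σ U f φ ^ 2 ≤ a := by
  refine le_of_tendsto_of_tendsto ((tendsto_Lam hU hf h).pow 2) (ha.mono_left hU) ?_
  refine Eventually.of_forall fun N => ?_
  refine (mn_cs f (fun v => φ (σ v)) N).trans ?_
  have h1 : mn (fun v => f v ^ 2) N ≤ 1 := by
    refine (le_abs_self _).trans (abs_mn_le zero_le_one (fun v => ?_) N)
    rw [abs_of_nonneg (sq_nonneg _)]
    exact (sq_le_one_iff_abs_le_one _).2 (hf v)
  have h2 : 0 ≤ mn (fun v => φ (σ v) ^ 2) N := by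
    unfold mn
    exact div_nonneg (Finset.sum_nonneg fun v _ => sq_nonneg _) (Nat.cast_nonneg _)
  calc mn (fun v => f v ^ 2) N * mn (fun v => φ (σ v) ^ 2) N ≤
        1 * mn (fun v => φ (σ v) ^ 2) N := mul_le_mul_of_nonneg_right h1 h2
    _ = _ := one_mul _

theorem hasE_nonneg {φ : GK K → ℝ} {a : ℝ} (h : ∀ g, 0 ≤ φ g) (ha : HasE σ φ a) : 0 ≤ a := by
  refine ge_of_tendsto' ha fun N => ?_
  unfold mn
  exact div_nonneg (Finset.sum_nonneg fun v _ => h _) (Nat.cast_nonneg _)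

/-- **One open subgroup governs the functional.** -/
theorem core (hσ : ∀ v, IsFrob v (σ v)) (hU : (U : Filter ℕ) ≤ atTop) (hf : ∀ v, |f v| ≤ 1)
    {ε : ℝ} (hε : 0 < ε) :
    ∃ W : Subgroup (GK K), W.Normal ∧ IsOpen (W : Set (GK K)) ∧ ∀ φ : GK K → ℝ, LC φ → MZ W φ →
      ∀ a, HasE σ (fun g => φ g ^ 2) a → |Lam σ U f φ| ≤ 2 * ε * Real.sqrt a := by
  set S : Set ℝ := {s | ∃ φ : GK K → ℝ, LC φ ∧ (∃ a, HasE σ (fun g => φ g ^ 2) a ∧ a ≤ 1) ∧
    Lam σ U f φ = s} with hS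
  have hb : ∀ s ∈ S, s ≤ 1 := by
    rintro s ⟨φ, hφ, ⟨a, ha, ha1⟩, rfl⟩
    have h1 := (Lam_sq_le hU hf hφ ha).trans ha1
    exact (abs_le.1 ((sq_le_one_iff_abs_le_one _).1 h1)).2
  have hE0 : HasE σ (fun _ : GK K => (0 : ℝ)) 0 := by
    unfold HasE
    refine tendsto_const_nhds.congr fun N => ?_
    unfold mn
    simp
  have h0 : (0 : ℝ) ∈ S := by
    refine ⟨fun _ => 0, LC.const 0, ⟨0, ?_, zero_le_one⟩, ?_⟩
    · simpa using hE0
    · have h1 := Lam_smul (σ := σ) hU hf (LC.const (K := K) 0) 0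
      simpa using h1
  have hbdd : BddAbove S := ⟨1, hb⟩
  set s : ℝ := sSup S with hs
  have hs0 : 0 ≤ s := le_csSup hbdd h0
  have hs1 : s ≤ 1 := csSup_le ⟨0, h0⟩ hb
  obtain ⟨s', hs'S, hs'⟩ := exists_lt_of_lt_csSup ⟨0, h0⟩ (show s - ε ^ 2 < sSup S by
    rw [← hs]
    have : 0 < ε ^ 2 := by positivity
    linarith)
  obtain ⟨φ₀, hφ₀, ⟨a₀, ha₀, ha₀1⟩, rfl⟩ := hs'S
  obtain ⟨hcl, W, hW, hWo, hWi⟩ := id hφ₀
  refine ⟨W, hW, hWo, fun φ hφ hz a ha => ?_⟩
  have ha0 : 0 ≤ a := hasE_nonneg (fun g => sq_nonneg _) ha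
  rcases ha0.eq_or_lt with h | h
  · have h1 := Lam_sq_le hU hf hφ ha
    rw [← h] at h1
    have h2 : Lam σ U f φ = 0 := by nlinarith [sq_nonneg (Lam σ U f φ)]
    rw [h2, abs_zero]
    positivity
  · have hr : 0 < Real.sqrt a := Real.sqrt_pos.2 h
    have ho := orth hσ hφ hφ₀ hz hWi
    -- the perturbed function
    have key : ∀ t : ℝ, t ^ 2 = ε ^ 2 → t / Real.sqrt a * Lam σ U f φ ≤ 3 / 2 * ε ^ 2 := by
      intro t ht
      set c : ℝ := t / Real.sqrt a with hc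
      have hψ : LC fun g => φ₀ g + c * φ g := hφ₀.add (hφ.smul c)
      have hE : HasE σ (fun g => (φ₀ g + c * φ g) ^ 2) (a₀ + ε ^ 2) := by
        have h1 : Tendsto (fun N => (mn (fun v => φ₀ (σ v) ^ 2) N) +
            2 * c * (mn (fun v => φ (σ v) * φ₀ (σ v)) N) + c ^ 2 * mn (fun v => φ (σ v) ^ 2) N)
            atTop (𝓝 (a₀ + 2 * c * 0 + c ^ 2 * a)) :=
          (ha₀.add (ho.const_mul (2 * c))).add (ha.const_mul (c ^ 2))
        have e1 : a₀ + 2 * c * 0 + c ^ 2 * a = a₀ + ε ^ 2 := by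
          rw [hc, div_pow, Real.sq_sqrt ha0, ht, div_mul_cancel₀ _ h.ne']
          ring
        rw [e1] at h1
        refine h1.congr fun N => ?_
        rw [← mn_mul, ← mn_mul, ← mn_add, ← mn_add]
        congr 1
        funext v
        ring
      set r : ℝ := Real.sqrt (1 + ε ^ 2) with hr'
      have hr1 : r ^ 2 = 1 + ε ^ 2 := Real.sq_sqrt (by positivity)
      have hr0 : 0 < r := Real.sqrt_pos.2 (by positivity)
      have hr2 : r ≤ 1 + ε ^ 2 / 2 := by
        rw [hr', Real.sqrt_le_left (by positivity)]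
        nlinarith [sq_nonneg (ε ^ 2)]
      have hmem : r⁻¹ * Lam σ U f (fun g => φ₀ g + c * φ g) ∈ S := by
        refine ⟨fun g => r⁻¹ * (φ₀ g + c * φ g), hψ.smul _, ⟨(r⁻¹) ^ 2 * (a₀ + ε ^ 2), ?_, ?_⟩,
          Lam_smul hU hf hψ _⟩
        · refine (hE.const_mul ((r⁻¹) ^ 2)).congr fun N => ?_
          rw [← mn_mul]
          congr 1
          funext v
          ring
        · rw [inv_pow, hr1, inv_mul_le_iff₀ (by positivity)]
          linarith
      have h3 := le_csSup hbdd hmem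
      rw [← hs, inv_mul_le_iff₀ hr0, Lam_add hU hf hφ₀ (hφ.smul c), Lam_smul hU hf hφ c] at h3
      nlinarith
    have k1 := key ε rfl
    have k2 := key (-ε) (by ring)
    have e1 : ε / Real.sqrt a * Lam σ U f φ = ε * Lam σ U f φ / Real.sqrt a := by ring
    have e2 : -ε / Real.sqrt a * Lam σ U f φ = -(ε * Lam σ U f φ) / Real.sqrt a := by ring
    rw [e1, div_le_iff₀ hr] at k1
    rw [e2, div_le_iff₀ hr] at k2
    rw [abs_le]
    constructor
    · nlinarith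
    · nlinarith

end

end Pool.Agent.TH936.ST.Hyb
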