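import Pool.Agent.TH936.ST.Hyb
import Mathlib.FieldTheory.Galois.Infinite

/-! The Galois side: class functions on the groups of finite Galois extensions `L` of `K`, and their
part that depends on a finite Galois extension `M` only. -/

set_option autoImplicit false

namespace Pool.Agent.TH936.ST.Hyb

open NumberField IsDedekindDomain Filter Topology Pool.Agent.W401.Cheb Pool.Agent.W540.BE
open Pool.Agent.W529.ST (uN tendsto_uN)

section
variable {K : Type} [Field K] [NumberField K]

/-- restriction to a normal extension -/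
noncomputable def rs (L : IntermediateField K (AlgebraicClosure K)) [Normal K L] :
    GK K →* Gal(L/K) := AlgEquiv.restrictNormalHom L

theorem rs_apply (L : IntermediateField K (AlgebraicClosure K)) [Normal K L] (σ : GK K) (x : L) :
    ((rs L σ x : L) : AlgebraicClosure K) = σ x :=
  AlgEquiv.restrictNormalHom_apply L σ x

theorem rs_surj (L : IntermediateField K (AlgebraicClosure K)) [Normal K L] :
    Function.Surjective (rs L) :=
  AlgEquiv.restrictNormalHom_surjective (F := K) (K₁ := L) (AlgebraicClosure K)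

theorem rs_ker (L : IntermediateField K (AlgebraicClosure K)) [Normal K L] :
    (rs L).ker = L.fixingSubgroup := IntermediateField.restrictNormalHom_ker L

theorem ker_open (L : IntermediateField K (AlgebraicClosure K)) [Normal K L]
    [FiniteDimensional K L] : IsOpen ((rs L).ker : Set (GK K)) := by
  rw [rs_ker]
  exact L.fixingSubgroup_isOpen

theorem fixing_le (L M : IntermediateField K (AlgebraicClosure K)) [Normal K L]
    [FiniteDimensional K L] :
    (L ⊓ M).fixingSubgroup ≤ L.fixingSubgroup ⊔ M.fixingSubgroup := by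
  set H : Subgroup (GK K) := L.fixingSubgroup ⊔ M.fixingSubgroup with hH
  have hL : IsOpen (L.fixingSubgroup : Set (GK K)) := L.fixingSubgroup_isOpen
  have ho : IsOpen (H : Set (GK K)) := Subgroup.isOpen_mono le_sup_left hL
  have hc : IsClosed (H : Set (GK K)) := H.isClosed_of_isOpen ho
  have h1 : IntermediateField.fixedField H ≤ L ⊓ M := by
    refine le_inf ?_ ?_
    · have := InfiniteGalois.fixedField_fixingSubgroup L
      rw [← this]
      exact IntermediateField.fixedField_antitone le_sup_left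
    · have := InfiniteGalois.fixedField_fixingSubgroup M
      rw [← this]
      exact IntermediateField.fixedField_antitone le_sup_right
  have h2 := InfiniteGalois.fixingSubgroup_fixedField (⟨H, hc⟩ : ClosedSubgroup (GK K))
  have h3 : (L ⊓ M).fixingSubgroup ≤ (IntermediateField.fixedField H).fixingSubgroup :=
    IntermediateField.fixingSubgroup_antitone h1
  exact h3.trans (le_of_eq h2)

theorem lift_mem (L M : IntermediateField K (AlgebraicClosure K)) [Normal K L]
    [FiniteDimensional K L] (h : Gal(L/K))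
    (hh : ∀ x : L, (x : AlgebraicClosure K) ∈ M → h x = x) :
    ∃ u ∈ M.fixingSubgroup, rs L u = h := by
  obtain ⟨τ, rfl⟩ := rs_surj L h
  have h1 : τ ∈ (L ⊓ M).fixingSubgroup := by
    rw [IntermediateField.mem_fixingSubgroup_iff]
    intro x hx
    have h2 := hh ⟨x, hx.1⟩ hx.2
    have h3 := rs_apply L τ ⟨x, hx.1⟩
    rw [h2] at h3
    exact h3.symm
  have h4 := fixing_le L M h1
  have hn : (L.fixingSubgroup).Normal := by
    rw [← rs_ker]
    exact MonoidHom.normal_ker _
  rw [Subgroup.mem_sup_of_normal_left] at h4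
  obtain ⟨a, ha, b, hb, hab⟩ := h4
  refine ⟨b, hb, ?_⟩
  rw [← hab, map_mul]
  have : rs L a = 1 := by
    rw [← MonoidHom.mem_ker, rs_ker]
    exact ha
  rw [this, one_mul]

/-- `g` agrees with `σ` on `L ∩ M` -/
def Agr (M L : IntermediateField K (AlgebraicClosure K)) (σ : GK K) (g : Gal(L/K)) : Prop :=
  ∀ x : L, (x : AlgebraicClosure K) ∈ M → ((g x : L) : AlgebraicClosure K) = σ x

/-- the mean of `φ` over the elements which agree with `σ` on `L ∩ M` -/
noncomputable def part (M L : IntermediateField K (AlgebraicClosure K)) (φ : Gal(L/K) → ℝ)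
    (σ : GK K) : ℝ :=
  (∑ᶠ g : {g : Gal(L/K) // Agr M L σ g}, φ g.1) / (Nat.card {g : Gal(L/K) // Agr M L σ g} : ℝ)

/-- class functions on the finite group -/
def ClsF {L : IntermediateField K (AlgebraicClosure K)} (φ : Gal(L/K) → ℝ) : Prop :=
  ∀ g τ, φ (τ * g * τ⁻¹) = φ g

/-- mean over the finite group -/
noncomputable def fm {L : IntermediateField K (AlgebraicClosure K)} (φ : Gal(L/K) → ℝ) : ℝ :=
  (∑ᶠ g : Gal(L/K), φ g) / (Nat.card Gal(L/K) : ℝ)

variable (M L : IntermediateField K (AlgebraicClosure K)) [Normal K M] [Normal K L]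
  [FiniteDimensional K M] [FiniteDimensional K L]

theorem lc_rs {φ : Gal(L/K) → ℝ} (hφ : ClsF φ) : LC fun σ => φ (rs L σ) := by
  refine ⟨fun g τ => ?_, (rs L).ker, inferInstance, ker_open L, fun g u hu => ?_⟩
  · simp only [map_mul, map_inv]
    exact hφ _ _
  · simp only [map_mul]
    rw [MonoidHom.mem_ker.1 hu, mul_one]

theorem fin_gal : Finite Gal(L/K) := inferInstance

theorem hasE_rs {σ : HeightOneSpectrum (𝓞 K) → GK K} (hσ : ∀ v, IsFrob v (σ v))
    {φ : Gal(L/K) → ℝ} (hφ : ClsF φ) : HasE σ (fun g => φ (rs L g)) (fm φ) := by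
  have hfin : Finite Gal(L/K) := inferInstance
  cases nonempty_fintype Gal(L/K)
  have h := mean_lim hσ (rs L).ker (ker_open L) (lc_rs L hφ).1 (φ := fun g => φ (rs L g))
    (fun g u hu => by
      simp only [map_mul]
      rw [MonoidHom.mem_ker.1 hu, mul_one])
  have hq := fin_quot (rs L).ker (ker_open L)
  cases nonempty_fintype (GK K ⧸ (rs L).ker)
  let e := (QuotientGroup.quotientKerEquivOfSurjective (rs L) (rs_surj L)).toEquiv
  have e1 : gm (rs L).ker (fun g => φ (rs L g)) = fm φ := by
    unfold gm fm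
    rw [finsum_eq_sum_of_fintype, finsum_eq_sum_of_fintype, Nat.card_congr e]
    congr 1
    refine Fintype.sum_equiv e _ _ fun q => ?_
    obtain ⟨g, rfl⟩ := QuotientGroup.mk_surjective q
    have h1 : e (QuotientGroup.mk (Quotient.out (QuotientGroup.mk g : GK K ⧸ (rs L).ker))) =
        rs L (Quotient.out (QuotientGroup.mk g : GK K ⧸ (rs L).ker)) := rfl
    rw [QuotientGroup.out_eq'] at h1
    exact congrArg φ h1.symm
  rw [e1] at h
  exact h

/-- the elements that fix `L ∩ M` -/
abbrev HH : Type := {h : Gal(L/K) // ∀ x : L, (x : AlgebraicClosure K) ∈ M → h x = x}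

/-- the elements that agree with `σ` form a coset -/
noncomputable def cosetEquiv (σ : GK K) : HH M L ≃ {g : Gal(L/K) // Agr M L σ g} where
  toFun h := ⟨rs L σ * h.1, fun x hx => by
    rw [AlgEquiv.mul_apply, h.2 x hx, rs_apply]⟩
  invFun g := ⟨(rs L σ)⁻¹ * g.1, fun x hx => by
    have h1 := g.2 x hx
    rw [← rs_apply L σ x] at h1
    have h2 : g.1 x = rs L σ x := Subtype.ext h1
    rw [AlgEquiv.mul_apply, h2, ← AlgEquiv.mul_apply, inv_mul_cancel, AlgEquiv.one_apply]⟩
  left_inv h := Subtype.ext (by simp)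
  right_inv g := Subtype.ext (by simp)

theorem part_eq (φ : Gal(L/K) → ℝ) (σ : GK K) [Fintype (HH M L)] :
    part M L φ σ = (∑ h : HH M L, φ (rs L σ * h.1)) / (Fintype.card (HH M L) : ℝ) := by
  unfold part
  rw [← Nat.card_congr (cosetEquiv M L σ), Nat.card_eq_fintype_card,
    ← finsum_comp_equiv (cosetEquiv M L σ), finsum_eq_sum_of_fintype]
  rfl

theorem inv_part (φ : Gal(L/K) → ℝ) : Inv M.fixingSubgroup (part M L φ) := by
  intro σ u hu
  have h : ∀ g : Gal(L/K), Agr M L (σ * u) g ↔ Agr M L σ g := by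
    intro g
    refine forall_congr' fun x => forall_congr' fun hx => ?_
    have : u (x : AlgebraicClosure K) = x :=
      (IntermediateField.mem_fixingSubgroup_iff _ _).1 hu _ hx
    rw [AlgEquiv.mul_apply, this]
  have gen : ∀ P Q : Gal(L/K) → Prop, P = Q →
      (∑ᶠ g : {g : Gal(L/K) // P g}, φ g.1) / (Nat.card {g : Gal(L/K) // P g} : ℝ) =
      (∑ᶠ g : {g : Gal(L/K) // Q g}, φ g.1) / (Nat.card {g : Gal(L/K) // Q g} : ℝ) := by
    rintro P _ rfl
    rfl
  exact gen _ _ (funext fun g => propext (h g))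

theorem maps_to (τ : GK K) {x : AlgebraicClosure K} (hx : x ∈ M) : τ x ∈ M := by
  have := rs_apply M τ ⟨x, hx⟩
  rw [← this]
  exact (rs M τ ⟨x, hx⟩).2

theorem cls_part {φ : Gal(L/K) → ℝ} (hφ : ClsF φ) : Cls (part M L φ) := by
  intro σ τ
  let e : {g : Gal(L/K) // Agr M L σ g} ≃ {g : Gal(L/K) // Agr M L (τ * σ * τ⁻¹) g} :=
    { toFun := fun g => ⟨rs L τ * g.1 * (rs L τ)⁻¹, fun x hx => by
        have h1 : (((rs L τ)⁻¹ x : L) : AlgebraicClosure K) = τ⁻¹ x := by
          rw [← map_inv]
          exact rs_apply L τ⁻¹ x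
        have h2 : (((rs L τ)⁻¹ x : L) : AlgebraicClosure K) ∈ M := by
          rw [h1]
          exact maps_to M τ⁻¹ hx
        rw [AlgEquiv.mul_apply, AlgEquiv.mul_apply, rs_apply, g.2 _ h2, h1, AlgEquiv.mul_apply,
          AlgEquiv.mul_apply]⟩
      invFun := fun g => ⟨(rs L τ)⁻¹ * g.1 * rs L τ, fun x hx => by
        have h1 : ((rs L τ x : L) : AlgebraicClosure K) = τ x := rs_apply L τ x
        have h2 : ((rs L τ x : L) : AlgebraicClosure K) ∈ M := by
          rw [h1]
          exact maps_to M τ hx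
        have h3 := g.2 _ h2
        rw [h1, AlgEquiv.mul_apply, AlgEquiv.mul_apply, ← AlgEquiv.mul_apply τ⁻¹ τ,
          inv_mul_cancel, AlgEquiv.one_apply] at h3
        have h4 : ((((rs L τ)⁻¹ (g.1 (rs L τ x)) : L)) : AlgebraicClosure K) =
            τ⁻¹ ((g.1 (rs L τ x) : L) : AlgebraicClosure K) := by
          rw [← map_inv]
          exact rs_apply L τ⁻¹ _
        rw [AlgEquiv.mul_apply, AlgEquiv.mul_apply, h4, h3, ← AlgEquiv.mul_apply,
          inv_mul_cancel, AlgEquiv.one_apply]⟩
      left_inv := fun g => Subtype.ext (by group)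
      right_inv := fun g => Subtype.ext (by group) }
  unfold part
  rw [← Nat.card_congr e, ← finsum_comp_equiv e]
  congr 1
  refine finsum_congr fun g => ?_
  exact hφ _ _

theorem lc_part {φ : Gal(L/K) → ℝ} (hφ : ClsF φ) : LC (part M L φ) := by
  refine ⟨cls_part M L hφ, M.fixingSubgroup, ?_, M.fixingSubgroup_isOpen, inv_part M L φ⟩
  rw [← rs_ker]
  exact MonoidHom.normal_ker _

theorem mz_part (φ : Gal(L/K) → ℝ) :
    MZ M.fixingSubgroup fun σ => φ (rs L σ) - part M L φ σ := by
  classical
  have hfin : Finite Gal(L/K) := inferInstance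
  have hfin2 : Finite (HH M L) := inferInstance
  cases nonempty_fintype (HH M L)
  choose u hu hur using fun h : HH M L => lift_mem L M h.1 h.2
  refine ⟨HH M L, inferInstance, ⟨⟨1, fun x _ => rfl⟩⟩, u, hu, fun σ => ?_⟩
  have e1 : ∀ h : HH M L, φ (rs L (σ * u h)) - part M L φ (σ * u h) =
      φ (rs L σ * h.1) - part M L φ σ := by
    intro h
    rw [map_mul, hur, inv_part M L φ σ (u h) (hu h)]
  rw [Finset.sum_congr rfl fun h _ => e1 h, Finset.sum_sub_distrib, Finset.sum_const,
    Finset.card_univ, nsmul_eq_mul, part_eq M L φ σ]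
  have : Nonempty (HH M L) := ⟨⟨1, fun x _ => rfl⟩⟩
  have e2 : (Fintype.card (HH M L) : ℝ) ≠ 0 := by exact_mod_cast Fintype.card_ne_zero
  rw [mul_div_cancel₀ _ e2, sub_self]

end

end Pool.Agent.TH936.ST.Hyb
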